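import Mathlib

/-!
# Cones on a well ordered set and the compact convex set `Q`

For an injective `e : K → ℕ` on a linear order `K` the cone of `t` is
`{s ≤ t | e t ≤ e r for all r in [s, t]}`.  Cones form a laminar family.
-/

namespace Pool.Agent.H916R3

open Set Finset

section cones

variable {K : Type*} [LinearOrder K] (e : K → ℕ)

/-- `InCone e s t`: the point `s` lies in the cone of `t`. -/
def InCone (s t : K) : Prop := s ≤ t ∧ ∀ r, s ≤ r → r ≤ t → e t ≤ e r

variable {e}

theorem InCone.refl (he : Function.Injective e) (s : K) : InCone e s s :=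
  ⟨le_rfl, fun r h1 h2 => by rw [le_antisymm h2 h1]⟩

theorem InCone.trans {s t u : K} (h1 : InCone e s t) (h2 : InCone e t u) : InCone e s u := by
  refine ⟨h1.1.trans h2.1, fun r hr1 hr2 => ?_⟩
  rcases le_total r t with h | h
  · exact (h2.2 t le_rfl h2.1).trans (h1.2 r hr1 h)
  · exact h2.2 r h hr2

theorem InCone.antisymm {s t : K} (h1 : InCone e s t) (h2 : InCone e t s) : s = t :=
  le_antisymm h1.1 h2.1

/-- Cones are laminar. -/
theorem InCone.laminar {u s t : K} (_h1 : InCone e u s) (h2 : InCone e u t) (hst : s ≤ t)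
    (hus : u ≤ s) : InCone e s t :=
  ⟨hst, fun r hr1 hr2 => h2.2 r (hus.trans hr1) hr2⟩

/-- A point between a member of a cone and its top is in the cone. -/
theorem InCone.convex {u s t : K} (h : InCone e u t) (hus : u ≤ s) (hst : s ≤ t) :
    InCone e s t :=
  ⟨hst, fun r hr1 hr2 => h.2 r (hus.trans hr1) hr2⟩

variable (e)

/-- Finite set of points with pairwise disjoint cones. -/
def Anti (A : Finset K) : Prop := ∀ s ∈ A, ∀ t ∈ A, InCone e s t → s = t

variable {e}

theorem Anti.subset {A B : Finset K} (hA : Anti e A) (h : B ⊆ A) : Anti e B :=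
  fun s hs t ht hst => hA s (h hs) t (h ht) hst

variable (e)

/-- The set `Q` of superadditive functions `K → [0,1]`. -/
def QSet : Set (K → ℝ) :=
  {q | (∀ s, 0 ≤ q s) ∧ (∀ A : Finset K, Anti e A → ∑ a ∈ A, q a ≤ 1) ∧
    (∀ r, ∀ A : Finset K, Anti e A → (∀ a ∈ A, InCone e a r) → ∑ a ∈ A, q a ≤ q r)}

variable {e}

theorem QSet.nonneg {q : K → ℝ} (hq : q ∈ QSet e) (s : K) : 0 ≤ q s := hq.1 s

theorem QSet.le_one {q : K → ℝ} (hq : q ∈ QSet e) (s : K) : q s ≤ 1 := by
  have := hq.2.1 {s} (by intro a ha b hb _; simp at ha hb; rw [ha, hb])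
  simpa using this

theorem isClosed_QSet : IsClosed (QSet e) := by
  have h1 : IsClosed {q : K → ℝ | ∀ s, 0 ≤ q s} := by
    simp only [setOf_forall]
    exact isClosed_iInter fun s => isClosed_le continuous_const (continuous_apply s)
  have h2 : IsClosed {q : K → ℝ | ∀ A : Finset K, Anti e A → ∑ a ∈ A, q a ≤ 1} := by
    simp only [setOf_forall]
    refine isClosed_iInter fun A => isClosed_iInter fun _ => isClosed_le ?_ continuous_const
    exact continuous_finsetSum _ fun a _ => continuous_apply a
  have h3 : IsClosed {q : K → ℝ | ∀ r, ∀ A : Finset K, Anti e A → (∀ a ∈ A, InCone e a r) →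
      ∑ a ∈ A, q a ≤ q r} := by
    simp only [setOf_forall]
    refine isClosed_iInter fun r => isClosed_iInter fun A => isClosed_iInter fun _ =>
      isClosed_iInter fun _ => isClosed_le ?_ (continuous_apply r)
    exact continuous_finsetSum _ fun a _ => continuous_apply a
  exact h1.inter (h2.inter h3)

theorem isCompact_QSet : IsCompact (QSet e) := by
  have hc : IsCompact (Set.pi Set.univ (fun _ : K => Set.Icc (0 : ℝ) 1)) :=
    isCompact_univ_pi fun _ => isCompact_Icc
  refine hc.of_isClosed_subset isClosed_QSet ?_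
  intro q hq s _
  exact ⟨hq.1 s, QSet.le_one hq s⟩

instance : CompactSpace (QSet e) := isCompact_iff_compactSpace.mp isCompact_QSet

/-- Cutting an element of `Q` down to a set closed under ancestors. -/
theorem QSet.cut {q : K → ℝ} (hq : q ∈ QSet e) (S : Set K) [DecidablePred (· ∈ S)]
    (hS : ∀ u r, u ∈ S → InCone e u r → r ∈ S) :
    (fun s => if s ∈ S then q s else 0) ∈ QSet e := by
  refine ⟨fun s => ?_, fun A hA => ?_, fun r A hA hAr => ?_⟩
  · dsimp only; split_ifs
    · exact hq.1 s
    · exact le_rfl
  · refine le_trans (Finset.sum_le_sum fun a _ => ?_) (hq.2.1 A hA)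
    split_ifs
    · exact le_rfl
    · exact hq.1 a
  · by_cases hr : r ∈ S
    · simp only [hr, if_true]
      refine le_trans (Finset.sum_le_sum fun a _ => ?_) (hq.2.2 r A hA hAr)
      split_ifs
      · exact le_rfl
      · exact hq.1 a
    · simp only [hr, if_false]
      refine le_of_eq (Finset.sum_eq_zero fun a ha => ?_)
      rw [if_neg]
      exact fun h => hr (hS a r h (hAr a ha))

/-- Convex combinations (with total weight at most one) stay in `Q`. -/
theorem QSet.combo {q q' : K → ℝ} (hq : q ∈ QSet e) (hq' : q' ∈ QSet e) {a b : ℝ}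
    (ha : 0 ≤ a) (hb : 0 ≤ b) (hab : a + b ≤ 1) : (fun s => a * q s + b * q' s) ∈ QSet e := by
  refine ⟨fun s => ?_, fun A hA => ?_, fun r A hA hAr => ?_⟩
  · have := hq.1 s; have := hq'.1 s; positivity
  · rw [Finset.sum_add_distrib, ← Finset.mul_sum, ← Finset.mul_sum]
    have h1 := hq.2.1 A hA
    have h2 := hq'.2.1 A hA
    nlinarith
  · rw [Finset.sum_add_distrib, ← Finset.mul_sum, ← Finset.mul_sum]
    have h1 := hq.2.2 r A hA hAr
    have h2 := hq'.2.2 r A hA hAr
    nlinarith

open Classical in
/-- The indicator of the ancestors of `t`. -/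
theorem QSet.branch (he : Function.Injective e) (t : K) :
    (fun s => if InCone e t s then (1 : ℝ) else 0) ∈ QSet e := by
  have key : ∀ A : Finset K, Anti e A → ∑ a ∈ A, (if InCone e t a then (1 : ℝ) else 0) ≤ 1 := by
    intro A hA
    rw [Finset.sum_ite, Finset.sum_const_zero, add_zero, Finset.sum_const, nsmul_eq_mul, mul_one]
    have : (A.filter fun a => InCone e t a).card ≤ 1 := by
      rw [Finset.card_le_one]
      intro a ha b hb
      simp only [Finset.mem_filter] at ha hb
      rcases le_total a b with h | h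
      · exact hA a ha.1 b hb.1 (InCone.laminar ha.2 hb.2 h ha.2.1)
      · exact (hA b hb.1 a ha.1 (InCone.laminar hb.2 ha.2 h hb.2.1)).symm
    exact_mod_cast this
  refine ⟨fun s => ?_, key, fun r A hA hAr => ?_⟩
  · dsimp only; split_ifs <;> norm_num
  · by_cases hr : InCone e t r
    · simp only [hr, if_true]; exact key A hA
    · simp only [hr, if_false]
      refine le_of_eq (Finset.sum_eq_zero fun a ha => ?_)
      rw [if_neg]
      exact fun h => hr (h.trans (hAr a ha))

/-- The key inequality: a superadditive weight on a finite laminar family behaves like a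
measure. -/
theorem key_ineq (he : Function.Injective e) (p : K → ℝ) (hp0 : ∀ s, 0 ≤ p s)
    (hp : ∀ r, ∀ A : Finset K, Anti e A → (∀ a ∈ A, InCone e a r) → ∑ a ∈ A, p a ≤ p r)
    (M : ℝ) (n : ℕ) : ∀ (G : Finset K) (a : K → ℝ) (c r : ℝ), G.card ≤ n → 0 ≤ r → |c| ≤ M →
      (∀ A ⊆ G, Anti e A → ∑ x ∈ A, p x ≤ r) →
      (∀ t ∈ G, |c + ∑ s ∈ G, (open Classical in if InCone e t s then a s else 0)| ≤ M) →
      |c * r + ∑ s ∈ G, a s * p s| ≤ M * r := by
  classical
  induction n with
  | zero =>
    intro G a c r hG hr hc _ _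
    have : G = ∅ := by simpa using hG
    subst this
    simp only [Finset.sum_empty, add_zero, abs_mul, abs_of_nonneg hr]
    exact mul_le_mul_of_nonneg_right hc hr
  | succ n ih =>
    intro G a c r hG hr hc hA ht
    rcases G.eq_empty_or_nonempty with rfl | hne
    · simp only [Finset.sum_empty, add_zero, abs_mul, abs_of_nonneg hr]
      exact mul_le_mul_of_nonneg_right hc hr
    obtain ⟨m, hmG, hmax⟩ : ∃ m ∈ G, ∀ x ∈ G, x ≤ m := ⟨G.max' hne, G.max'_mem hne, fun x hx =>
      G.le_max' x hx⟩
    set G1 := (G.erase m).filter (fun s => InCone e s m) with hG1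
    set G2 := (G.erase m).filter (fun s => ¬ InCone e s m) with hG2
    have hcard : (G.erase m).card ≤ n := by
      rw [Finset.card_erase_of_mem hmG]; omega
    have hG1c : G1.card ≤ n := (Finset.card_le_card (Finset.filter_subset _ _)).trans hcard
    have hG2c : G2.card ≤ n := (Finset.card_le_card (Finset.filter_subset _ _)).trans hcard
    have hG1G : G1 ⊆ G := (Finset.filter_subset _ _).trans (Finset.erase_subset _ _)
    have hG2G : G2 ⊆ G := (Finset.filter_subset _ _).trans (Finset.erase_subset _ _)
    have hsplit : ∀ f : K → ℝ, ∑ s ∈ G, f s = f m + (∑ s ∈ G1, f s + ∑ s ∈ G2, f s) := by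
      intro f
      rw [← Finset.add_sum_erase G f hmG, hG1, hG2, Finset.sum_filter_add_sum_filter_not]
    -- disjointness facts
    have hd12 : ∀ t ∈ G1, ∀ s ∈ G2, ¬ InCone e t s := by
      intro t ht1 s hs2 hts
      have h1 : InCone e t m := (Finset.mem_filter.mp ht1).2
      have h2 := Finset.mem_filter.mp hs2
      exact h2.2 (InCone.laminar hts h1 (hmax s (hG2G hs2)) hts.1)
    have hd21 : ∀ t ∈ G2, ∀ s ∈ G1, ¬ InCone e t s := by
      intro t ht2 s hs1 hts
      have h1 : InCone e s m := (Finset.mem_filter.mp hs1).2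
      exact (Finset.mem_filter.mp ht2).2 (hts.trans h1)
    have hm : ∀ s ∈ G.erase m, ¬ InCone e m s := by
      intro s hs hms
      exact (Finset.ne_of_mem_erase hs) (le_antisymm (hmax s (Finset.mem_of_mem_erase hs)) hms.1)
    have hcm : |c + a m| ≤ M := by
      have := ht m hmG
      rw [hsplit, if_pos (InCone.refl he m)] at this
      rw [Finset.sum_eq_zero (s := G1), Finset.sum_eq_zero (s := G2)] at this
      · simpa using this
      · intro s hs; rw [if_neg (hm s (Finset.mem_filter.mp hs).1)]
      · intro s hs; rw [if_neg (hm s (Finset.mem_filter.mp hs).1)]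
    have e1 : |(c + a m) * p m + ∑ s ∈ G1, a s * p s| ≤ M * p m := by
      refine ih G1 a (c + a m) (p m) hG1c (hp0 m) hcm ?_ ?_
      · intro A hAG hAA
        exact hp m A hAA fun x hx => (Finset.mem_filter.mp (hAG hx)).2
      · intro t ht1
        have := ht t (hG1G ht1)
        rw [hsplit, if_pos (Finset.mem_filter.mp ht1).2] at this
        rw [Finset.sum_eq_zero (s := G2), add_zero, ← add_assoc] at this
        · exact this
        · intro s hs; rw [if_neg (hd12 t ht1 s hs)]
    have hpr : 0 ≤ r - p m := by
      have := hA {m} (by simpa using hmG) (by intro x hx y hy _; simp at hx hy; rw [hx, hy])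
      simp only [Finset.sum_singleton] at this
      linarith
    have e2 : |c * (r - p m) + ∑ s ∈ G2, a s * p s| ≤ M * (r - p m) := by
      refine ih G2 a c (r - p m) hG2c hpr hc ?_ ?_
      · intro A hAG hAA
        have hmA : m ∉ A := fun h => by
          have := Finset.mem_filter.mp (hAG h)
          exact (Finset.ne_of_mem_erase this.1) rfl
        have := hA (insert m A) (by
          intro x hx
          rcases Finset.mem_insert.mp hx with h | h
          · rw [h]; exact hmG
          · exact hG2G (hAG h)) (by
          intro x hx y hy hxy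
          rcases Finset.mem_insert.mp hx with h | h <;> rcases Finset.mem_insert.mp hy with h' | h'
          · rw [h, h']
          · exfalso
            rw [h] at hxy
            exact hm y (Finset.mem_filter.mp (hAG h')).1 hxy
          · exfalso
            rw [h'] at hxy
            exact (Finset.mem_filter.mp (hAG h)).2 hxy
          · exact hAA x h y h' hxy)
        rw [Finset.sum_insert hmA] at this
        linarith
      · intro t ht2
        have := ht t (hG2G ht2)
        rw [hsplit, if_neg (Finset.mem_filter.mp ht2).2, zero_add] at this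
        rw [Finset.sum_eq_zero (s := G1), zero_add] at this
        · exact this
        · intro s hs; rw [if_neg (hd21 t ht2 s hs)]
    have e3 : c * r + ∑ s ∈ G, a s * p s = ((c + a m) * p m + ∑ s ∈ G1, a s * p s) +
        (c * (r - p m) + ∑ s ∈ G2, a s * p s) := by
      rw [hsplit]; ring
    rw [e3]
    refine (abs_add_le _ _).trans ?_
    linarith

end cones

end Pool.Agent.H916R3
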