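import Mathlib

set_option maxSynthPendingDepth 6

/-!
# The completed injective tensor product

The injective norm of `u = ∑ x i ⊗ y i` is `sup |∑ f (x i) * g (y i)|` over the unit balls of the
duals, that is, the norm of `u` as a bounded bilinear form on `X* × Y*`.  The completed injective
tensor product is realised, as usual, as the closure of the algebraic tensors in the Banach space
of bounded bilinear forms on `X* × Y*`.
-/

namespace Pool.Agent.H916R3

universe u v

section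

variable (X : Type u) [NormedAddCommGroup X] [NormedSpace ℝ X]

/-- The dual Banach space. -/
def DualSp : Type u := X →L[ℝ] ℝ

noncomputable instance : NormedAddCommGroup (DualSp X) :=
  (inferInstance : NormedAddCommGroup (X →L[ℝ] ℝ))

noncomputable instance : NormedSpace ℝ (DualSp X) :=
  (inferInstance : NormedSpace ℝ (X →L[ℝ] ℝ))

variable {X}

/-- The value of a functional at `x`. -/
def DualSp.val (f : DualSp X) (x : X) : ℝ := (show X →L[ℝ] ℝ from f) x

/-- Evaluation of functionals at `x`, as a linear map. -/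
def DualSp.evLin (x : X) : DualSp X →ₗ[ℝ] ℝ where
  toFun f := f.val x
  map_add' _ _ := rfl
  map_smul' _ _ := rfl

theorem DualSp.abs_val_le (x : X) (f : DualSp X) : ‖DualSp.evLin x f‖ ≤ ‖x‖ * ‖f‖ := by
  rw [mul_comm]
  exact ContinuousLinearMap.le_opNorm (show X →L[ℝ] ℝ from f) x

/-- Evaluation of functionals at `x`. -/
noncomputable def DualSp.ev (x : X) : DualSp X →L[ℝ] ℝ :=
  (DualSp.evLin x).mkContinuous ‖x‖ (DualSp.abs_val_le x)

theorem DualSp.ev_apply (x : X) (f : X →L[ℝ] ℝ) : DualSp.ev x f = f x := rfl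

end

section

variable (X : Type u) [NormedAddCommGroup X] [NormedSpace ℝ X]
  (Y : Type v) [NormedAddCommGroup Y] [NormedSpace ℝ Y]

/-- The Banach space of bounded bilinear forms on `X* × Y*`. -/
def BForm : Type (max u v) := DualSp X →L[ℝ] DualSp Y →L[ℝ] ℝ

noncomputable instance : NormedAddCommGroup (BForm X Y) :=
  (inferInstance : NormedAddCommGroup (DualSp X →L[ℝ] DualSp Y →L[ℝ] ℝ))

noncomputable instance : NormedSpace ℝ (BForm X Y) :=
  (inferInstance : NormedSpace ℝ (DualSp X →L[ℝ] DualSp Y →L[ℝ] ℝ))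

instance : CompleteSpace (BForm X Y) :=
  (inferInstance : CompleteSpace (DualSp X →L[ℝ] DualSp Y →L[ℝ] ℝ))

variable {X Y}

/-- The elementary tensor `x ⊗ y` as the bilinear form `(f, g) ↦ f x * g y`. -/
noncomputable def tmul (x : X) (y : Y) : BForm X Y :=
  (DualSp.ev x).smulRight (DualSp.ev y)

/-- Application of a bilinear form. -/
noncomputable def BForm.app (u : BForm X Y) (f : X →L[ℝ] ℝ) (g : Y →L[ℝ] ℝ) : ℝ :=
  (show DualSp X →L[ℝ] DualSp Y →L[ℝ] ℝ from u) (show DualSp X from f) (show DualSp Y from g)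

theorem BForm.app_tmul (x : X) (y : Y) (f : X →L[ℝ] ℝ) (g : Y →L[ℝ] ℝ) :
    (tmul x y).app f g = f x * g y := rfl

theorem BForm.app_zero (f : X →L[ℝ] ℝ) (g : Y →L[ℝ] ℝ) : (0 : BForm X Y).app f g = 0 := rfl

theorem BForm.app_add (u v : BForm X Y) (f : X →L[ℝ] ℝ) (g : Y →L[ℝ] ℝ) :
    (u + v).app f g = u.app f g + v.app f g := rfl

theorem BForm.app_sub (u v : BForm X Y) (f : X →L[ℝ] ℝ) (g : Y →L[ℝ] ℝ) :
    (u - v).app f g = u.app f g - v.app f g := rfl

theorem BForm.app_smul (c : ℝ) (u : BForm X Y) (f : X →L[ℝ] ℝ) (g : Y →L[ℝ] ℝ) :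
    (c • u).app f g = c * u.app f g := rfl

theorem BForm.app_sum {ι : Type*} (s : Finset ι) (u : ι → BForm X Y) (f : X →L[ℝ] ℝ)
    (g : Y →L[ℝ] ℝ) : (∑ i ∈ s, u i).app f g = ∑ i ∈ s, (u i).app f g := by
  classical
  induction s using Finset.induction_on with
  | empty => simp [BForm.app_zero]
  | insert a s ha ih => rw [Finset.sum_insert ha, Finset.sum_insert ha, BForm.app_add, ih]

theorem BForm.abs_app_le (u : BForm X Y) (f : X →L[ℝ] ℝ) (g : Y →L[ℝ] ℝ) :
    |u.app f g| ≤ ‖u‖ * ‖f‖ * ‖g‖ :=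
  ContinuousLinearMap.le_opNorm₂ (show DualSp X →L[ℝ] DualSp Y →L[ℝ] ℝ from u) f g

theorem BForm.norm_le_of (u : BForm X Y) {M : ℝ} (hM : 0 ≤ M)
    (h : ∀ (f : X →L[ℝ] ℝ) (g : Y →L[ℝ] ℝ), |u.app f g| ≤ M * ‖f‖ * ‖g‖) : ‖u‖ ≤ M :=
  ContinuousLinearMap.opNorm_le_bound₂ (show DualSp X →L[ℝ] DualSp Y →L[ℝ] ℝ from u) hM h

variable (X Y)

/-- Closed linear span of the elementary tensors. -/
noncomputable def injSub : Submodule ℝ (BForm X Y) :=
  (Submodule.span ℝ (Set.range fun p : X × Y => tmul p.1 p.2)).topologicalClosure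

/-- The completed injective tensor product of `X` and `Y`. -/
def InjTensor : Type (max u v) := injSub X Y

noncomputable instance : NormedAddCommGroup (InjTensor X Y) :=
  (inferInstance : NormedAddCommGroup (injSub X Y))

noncomputable instance : NormedSpace ℝ (InjTensor X Y) :=
  (inferInstance : NormedSpace ℝ (injSub X Y))

instance : CompleteSpace (InjTensor X Y) := by
  have : CompleteSpace (injSub X Y) := by
    unfold injSub
    exact (Submodule.isClosed_topologicalClosure _).completeSpace_coe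
  exact this

end

/-- Sanity check: the norm of a finite sum of elementary tensors is its injective norm. -/
theorem injective_norm_le_iff {X Y ι : Type*} [NormedAddCommGroup X] [NormedSpace ℝ X]
    [NormedAddCommGroup Y] [NormedSpace ℝ Y] (s : Finset ι) (x : ι → X) (y : ι → Y) {C : ℝ}
    (hC : 0 ≤ C) :
    ‖∑ i ∈ s, tmul (x i) (y i)‖ ≤ C ↔
      ∀ (f : X →L[ℝ] ℝ) (g : Y →L[ℝ] ℝ), ‖f‖ ≤ 1 → ‖g‖ ≤ 1 →
        |∑ i ∈ s, f (x i) * g (y i)| ≤ C := by
  have happ : ∀ (f : X →L[ℝ] ℝ) (g : Y →L[ℝ] ℝ),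
      (∑ i ∈ s, tmul (x i) (y i)).app f g = ∑ i ∈ s, f (x i) * g (y i) := by
    intro f g
    simp only [BForm.app_sum, BForm.app_tmul]
  constructor
  · intro h f g hf hg
    rw [← happ]
    refine (BForm.abs_app_le _ f g).trans ?_
    calc ‖∑ i ∈ s, tmul (x i) (y i)‖ * ‖f‖ * ‖g‖ ≤ C * 1 * 1 := by gcongr
      _ = C := by ring
  · intro h
    refine BForm.norm_le_of _ hC fun f g => ?_
    rw [happ]
    rcases eq_or_ne f 0 with rfl | hf
    · simp
    rcases eq_or_ne g 0 with rfl | hg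
    · simp
    have hf' : 0 < ‖f‖ := norm_pos_iff.mpr hf
    have hg' : 0 < ‖g‖ := norm_pos_iff.mpr hg
    have h1 := h (‖f‖⁻¹ • f) (‖g‖⁻¹ • g)
      (by rw [norm_smul, norm_inv, norm_norm, inv_mul_cancel₀ hf'.ne'])
      (by rw [norm_smul, norm_inv, norm_norm, inv_mul_cancel₀ hg'.ne'])
    have h2 : ∑ i ∈ s, (‖f‖⁻¹ • f) (x i) * (‖g‖⁻¹ • g) (y i) =
        (‖f‖⁻¹ * ‖g‖⁻¹) * ∑ i ∈ s, f (x i) * g (y i) := by
      rw [Finset.mul_sum]
      refine Finset.sum_congr rfl fun i _ => ?_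
      simp only [smul_apply, smul_eq_mul]; ring
    rw [h2, abs_mul, abs_of_pos (by positivity)] at h1
    have h3 : (‖f‖⁻¹ * ‖g‖⁻¹) * (‖f‖ * ‖g‖) = 1 := by field_simp
    calc |∑ i ∈ s, f (x i) * g (y i)|
        = ((‖f‖⁻¹ * ‖g‖⁻¹) * |∑ i ∈ s, f (x i) * g (y i)|) * (‖f‖ * ‖g‖) := by
          rw [mul_assoc, mul_comm |_| _, ← mul_assoc, h3, one_mul]
      _ ≤ C * (‖f‖ * ‖g‖) := mul_le_mul_of_nonneg_right h1 (by positivity)
      _ = C * ‖f‖ * ‖g‖ := by ring

/-- `E` is isometric to a subspace of `Z` that is the range of a projection of norm at most one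
(the isometric embedding is `J`, the projection is `J ∘ P`). -/
def NormOneComplemented (E : Type u) [NormedAddCommGroup E] [NormedSpace ℝ E]
    (Z : Type v) [NormedAddCommGroup Z] [NormedSpace ℝ Z] : Prop :=
  ∃ (J : E →ₗᵢ[ℝ] Z) (P : Z →L[ℝ] E), ‖P‖ ≤ 1 ∧ ∀ f, P (J f) = f

/-- `E` embeds in `Z`: `E` is isomorphic to a closed subspace of `Z`. -/
def Embeds (E : Type u) [NormedAddCommGroup E] [NormedSpace ℝ E]
    (Z : Type v) [NormedAddCommGroup Z] [NormedSpace ℝ Z] : Prop :=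
  ∃ W : Submodule ℝ Z, IsClosed (W : Set Z) ∧ Nonempty (E ≃L[ℝ] W)

end Pool.Agent.H916R3
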