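import Mathlib
import Pool.Agent.H916R3.Cones
import Pool.Agent.H916R3.InjTensor

set_option maxSynthPendingDepth 6

/-!
# An abstract criterion for `C(K)` to be norm one complemented in `X ⊗ X`
-/

namespace Pool.Agent.H916R3

open Set Finset

section embed

variable {X : Type*} [NormedAddCommGroup X] [NormedSpace ℝ X]

theorem diag_bound (u : BForm X X) (f : X →L[ℝ] ℝ) (hf : ‖f‖ ≤ 1) : |u.app f f| ≤ ‖u‖ := by
  refine (BForm.abs_app_le _ _ _).trans ?_
  calc ‖u‖ * ‖f‖ * ‖f‖ ≤ ‖u‖ * 1 * 1 := by gcongr
    _ = ‖u‖ := by ring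

variable {K : Type*} [TopologicalSpace K]

/-- The submodule of forms with continuous diagonal. -/
def contDiag (φ : K → X →L[ℝ] ℝ) : Submodule ℝ (BForm X X) where
  carrier := {u | Continuous fun t => u.app (φ t) (φ t)}
  add_mem' := by
    intro a b ha hb
    exact Continuous.add ha hb
  zero_mem' := by
    exact continuous_const
  smul_mem' := by
    intro c a ha
    exact Continuous.const_smul ha c

theorem cont_diag (φ : K → X →L[ℝ] ℝ) (hφ : ∀ t, ‖φ t‖ ≤ 1)
    (hc : ∀ x, Continuous fun t => φ t x) {u : BForm X X} (hu : u ∈ injSub X X) :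
    Continuous fun t => u.app (φ t) (φ t) := by
  have hsub : Submodule.span ℝ (Set.range fun p : X × X => tmul p.1 p.2) ≤
      contDiag φ := by
    rw [Submodule.span_le]
    rintro _ ⟨p, rfl⟩
    change Continuous fun t => (tmul p.1 p.2).app (φ t) (φ t)
    simp only [BForm.app_tmul]
    exact (hc p.1).mul (hc p.2)
  refine continuous_of_uniform_approx_of_continuous fun U hU => ?_
  obtain ⟨ε, hε, hεU⟩ := Metric.mem_uniformity_dist.mp hU
  have hcl : u ∈ closure (Submodule.span ℝ
      (Set.range fun p : X × X => tmul p.1 p.2) : Set _) := hu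
  obtain ⟨v, hv, huv⟩ := Metric.mem_closure_iff.mp hcl ε hε
  refine ⟨fun t => v.app (φ t) (φ t), hsub hv, fun t => hεU ?_⟩
  rw [Real.dist_eq]
  calc |u.app (φ t) (φ t) - v.app (φ t) (φ t)| = |(u - v).app (φ t) (φ t)| := by
        rw [BForm.app_sub]
    _ ≤ ‖u - v‖ := diag_bound _ _ (hφ t)
    _ < ε := by rwa [← dist_eq_norm]

variable [CompactSpace K]

/-- The diagonal operator from `X ⊗ X` to `C(K)`. -/
noncomputable def Pdiag (φ : K → X →L[ℝ] ℝ) (hφ : ∀ t, ‖φ t‖ ≤ 1)
    (hc : ∀ x, Continuous fun t => φ t x) : InjTensor X X →L[ℝ] C(K, ℝ) :=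
  LinearMap.mkContinuous
    { toFun := fun u => ⟨fun t => u.1.app (φ t) (φ t), cont_diag φ hφ hc u.2⟩
      map_add' := fun _ _ => rfl
      map_smul' := fun _ _ => rfl } 1 (by
    intro u
    rw [one_mul]
    refine (ContinuousMap.norm_le _ (norm_nonneg _)).mpr fun t => ?_
    exact diag_bound u.1 _ (hφ t))

section

variable {φ : K → X →L[ℝ] ℝ} {hφ : ∀ t, ‖φ t‖ ≤ 1} {hc : ∀ x, Continuous fun t => φ t x}

theorem Pdiag_apply (u : InjTensor X X) (t : K) :
    Pdiag φ hφ hc u t = u.1.app (φ t) (φ t) := rfl

theorem norm_Pdiag_le : ‖Pdiag φ hφ hc‖ ≤ 1 :=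
  LinearMap.mkContinuous_norm_le _ zero_le_one _

theorem norm_Pdiag_apply_le (u : InjTensor X X) : ‖Pdiag φ hφ hc u‖ ≤ ‖u‖ := by
  have := (Pdiag φ hφ hc).le_of_opNorm_le norm_Pdiag_le u
  rwa [one_mul] at this

end

omit [TopologicalSpace K] [CompactSpace K] in
/-- The diagonal vectors. -/
noncomputable def dv (v : K → X) (s : K) : InjTensor X X :=
  ⟨tmul (v s) (v s), Submodule.le_topologicalClosure _
    (Submodule.subset_span ⟨(v s, v s), rfl⟩)⟩

/-- The closed span of the diagonal vectors. -/
noncomputable def Dsub (v : K → X) : Submodule ℝ (InjTensor X X) :=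
  (Submodule.span ℝ (Set.range (dv v))).topologicalClosure

instance instCompleteDsub (v : K → X) : CompleteSpace (Dsub v) := by
  unfold Dsub
  exact (Submodule.isClosed_topologicalClosure _).completeSpace_coe

variable [LinearOrder K] {e : K → ℕ}

open Classical in
/-- The data needed for the embedding. -/
structure DiagData (e : K → ℕ) (φ : K → X →L[ℝ] ℝ) (v : K → X) : Prop where
  norm_le : ∀ t, ‖φ t‖ ≤ 1
  cont : ∀ x, Continuous fun t => φ t x
  pair : ∀ t s, φ t (v s) = if InCone e t s then 1 else 0
  tensor : ∀ (F : Finset K) (a : K → ℝ) (M : ℝ), 0 ≤ M →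
    (∀ t, |∑ s ∈ F, if InCone e t s then a s else 0| ≤ M) →
    ‖∑ s ∈ F, a s • tmul (v s) (v s)‖ ≤ M

variable {φ : K → X →L[ℝ] ℝ} {v : K → X}

namespace DiagData

/-- The diagonal operator attached to the data. -/
noncomputable def P (D : DiagData e φ v) : InjTensor X X →L[ℝ] C(K, ℝ) :=
  Pdiag φ D.norm_le D.cont

open Classical in
theorem P_dv (D : DiagData e φ v) (s t : K) :
    D.P (dv v s) t = if InCone e t s then 1 else 0 := by
  change (tmul (v s) (v s)).app (φ t) (φ t) = _
  rw [BForm.app_tmul, D.pair]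
  split_ifs <;> simp

theorem norm_le_of_mem_Dsub (D : DiagData e φ v) {u : InjTensor X X}
    (hu : u ∈ Dsub v) : ‖u‖ ≤ ‖D.P u‖ := by
  classical
  have hcl : IsClosed {u : InjTensor X X | ‖u‖ ≤ ‖D.P u‖} :=
    isClosed_le continuous_norm (continuous_norm.comp D.P.continuous)
  have hsub : (Submodule.span ℝ (Set.range (dv v)) : Set (InjTensor X X)) ⊆
      {u | ‖u‖ ≤ ‖D.P u‖} := by
    intro u hu
    obtain ⟨c, rfl⟩ := (Finsupp.mem_span_range_iff_exists_finsupp).mp hu
    change ‖c.sum fun i a => a • dv v i‖ ≤ ‖D.P (c.sum fun i a => a • dv v i)‖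
    have h1 : (c.sum fun i a => a • dv v i : InjTensor X X).1 =
        ∑ s ∈ c.support, c s • tmul (v s) (v s) := by
      have h2 : ∀ S : Finset K, (∑ s ∈ S, c s • dv v s : InjTensor X X).1 =
          ∑ s ∈ S, c s • tmul (v s) (v s) := by
        intro S
        induction S using Finset.induction_on with
        | empty => rfl
        | insert a s ha ih =>
          rw [Finset.sum_insert ha, Finset.sum_insert ha, ← ih]
          rfl
      exact h2 _
    change ‖(c.sum fun i a => a • dv v i : InjTensor X X).1‖ ≤ _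
    rw [h1]
    refine D.tensor _ _ _ (norm_nonneg _) fun t => ?_
    have h2 : ∑ s ∈ c.support, (if InCone e t s then c s else 0)
        = D.P (c.sum fun i a => a • dv v i) t := by
      rw [Finsupp.sum, map_sum, ContinuousMap.coe_sum, Finset.sum_apply]
      refine Finset.sum_congr rfl fun s _ => ?_
      rw [map_smul, ContinuousMap.coe_smul, Pi.smul_apply, D.P_dv]
      split_ifs <;> simp
    rw [h2, ← Real.norm_eq_abs]
    exact ContinuousMap.norm_coe_le_norm _ t
  have : u ∈ closure (Submodule.span ℝ (Set.range (dv v)) : Set (InjTensor X X)) := hu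
  exact hcl.closure_subset_iff.mpr hsub this

/-- The diagonal operator restricted to the diagonal subspace is an isometry. -/
noncomputable def PD (D : DiagData e φ v) : Dsub v →ₗᵢ[ℝ] C(K, ℝ) where
  toLinearMap := (D.P.comp (Submodule.subtypeL (Dsub v))).toLinearMap
  norm_map' := by
    intro u
    change ‖D.P u.1‖ = ‖u.1‖
    exact le_antisymm (norm_Pdiag_apply_le u.1) (D.norm_le_of_mem_Dsub u.2)

theorem PD_apply (D : DiagData e φ v) (u : Dsub v) : D.PD u = D.P u.1 := rfl

/-- The multiplicative set of cone indicators (and zero). -/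
def coneMonoid (D : DiagData e φ v) [OrderTop K]
    (htop : ∀ s, InCone e s (⊤ : K)) : Submonoid C(K, ℝ) where
  carrier := {f | f = 0 ∨ ∃ s, f = D.P (dv v s)}
  one_mem' := by
    classical
    refine Or.inr ⟨⊤, ?_⟩
    refine ContinuousMap.ext fun t => ?_
    rw [D.P_dv, if_pos (htop t)]
    rfl
  mul_mem' := by
    classical
    have key : ∀ s s' : K, s ≤ s' → (D.P (dv v s) * D.P (dv v s') = 0 ∨
        D.P (dv v s) * D.P (dv v s') = D.P (dv v s)) := by
      intro s s' hss
      by_cases h : InCone e s s'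
      · right
        refine ContinuousMap.ext fun t => ?_
        rw [ContinuousMap.mul_apply, D.P_dv, D.P_dv]
        by_cases ht : InCone e t s
        · rw [if_pos ht, if_pos (ht.trans h), mul_one]
        · rw [if_neg ht, zero_mul]
      · left
        refine ContinuousMap.ext fun t => ?_
        rw [ContinuousMap.mul_apply, D.P_dv, D.P_dv]
        by_cases ht : InCone e t s
        · have : ¬ InCone e t s' := fun h' => h (InCone.laminar ht h' hss ht.1)
          rw [if_neg this, mul_zero]; rfl
        · rw [if_neg ht, zero_mul]; rfl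
    intro a b ha hb
    rcases ha with rfl | ⟨s, rfl⟩
    · left; simp
    rcases hb with rfl | ⟨s', rfl⟩
    · left; simp
    rcases le_total s s' with h | h
    · rcases key s s' h with h' | h'
      · left; exact h'
      · right; exact ⟨s, h'⟩
    · rw [mul_comm]
      rcases key s' s h with h' | h'
      · left; exact h'
      · right; exact ⟨s', h'⟩

theorem PD_surjective (D : DiagData e φ v) [OrderTop K]
    (he : Function.Injective e) (htop : ∀ s, InCone e s (⊤ : K)) :
    Function.Surjective D.PD := by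
  classical
  have hclosed : IsClosed (Set.range D.PD) :=
    D.PD.isometry.isClosedEmbedding.isClosed_range
  have hspan : (Submodule.span ℝ (D.coneMonoid htop : Set C(K, ℝ)) : Set C(K, ℝ)) ⊆
      Set.range D.PD := by
    have : Submodule.span ℝ (D.coneMonoid htop : Set C(K, ℝ)) ≤ LinearMap.range
        D.PD.toLinearMap := by
      rw [Submodule.span_le]
      intro f hf
      rcases hf with rfl | ⟨s, rfl⟩
      · exact Submodule.zero_mem _
      · exact ⟨⟨dv v s, Submodule.le_topologicalClosure _ (Submodule.subset_span ⟨s, rfl⟩)⟩, rfl⟩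
    intro f hf
    obtain ⟨u, hu⟩ := this hf
    exact ⟨u, hu⟩
  have hdense : closure (Submodule.span ℝ (D.coneMonoid htop : Set C(K, ℝ)) : Set C(K, ℝ))
      = Set.univ := by
    have hsw := ContinuousMap.subalgebra_topologicalClosure_eq_top_of_separatesPoints
      (Algebra.adjoin ℝ (D.coneMonoid htop : Set C(K, ℝ))) (by
        intro s t hst
        by_cases h : InCone e t s
        · refine ⟨_, ⟨D.P (dv v t), Algebra.subset_adjoin (Or.inr ⟨t, rfl⟩), rfl⟩, ?_⟩
          change D.P (dv v t) s ≠ D.P (dv v t) t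
          rw [D.P_dv, D.P_dv, if_pos (InCone.refl he t), if_neg]
          · norm_num
          · intro h'; exact hst (h'.antisymm h)
        · refine ⟨_, ⟨D.P (dv v s), Algebra.subset_adjoin (Or.inr ⟨s, rfl⟩), rfl⟩, ?_⟩
          change D.P (dv v s) s ≠ D.P (dv v s) t
          rw [D.P_dv, D.P_dv, if_pos (InCone.refl he s), if_neg h]
          norm_num)
    have hadj : (Algebra.adjoin ℝ (D.coneMonoid htop : Set C(K, ℝ)) : Set C(K, ℝ)) =
        (Submodule.span ℝ (D.coneMonoid htop : Set C(K, ℝ)) : Set C(K, ℝ)) := by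
      have := Algebra.adjoin_eq_span ℝ (D.coneMonoid htop : Set C(K, ℝ))
      rw [Submonoid.closure_eq] at this
      rw [← this]; rfl
    rw [← hadj, ← Subalgebra.topologicalClosure_coe, hsw]
    rfl
  intro f
  have : f ∈ closure (Submodule.span ℝ (D.coneMonoid htop : Set C(K, ℝ)) : Set C(K, ℝ)) := by
    rw [hdense]; trivial
  exact hclosed.closure_subset_iff.mpr hspan this

/-- `C(K)` is isometric to a norm one complemented subspace of the completed injective tensor
product of `X` with itself. -/
theorem exists_embed (D : DiagData e φ v) [OrderTop K]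
    (he : Function.Injective e) (htop : ∀ s, InCone e s (⊤ : K)) :
    NormOneComplemented C(K, ℝ) (InjTensor X X) := by
  let E := LinearIsometryEquiv.ofSurjective D.PD (D.PD_surjective he htop)
  refine ⟨(Submodule.subtypeₗᵢ (Dsub v)).comp E.symm.toLinearIsometry, D.P,
    norm_Pdiag_le, fun f => ?_⟩
  have : D.PD (E.symm f) = f := E.apply_symm_apply f
  exact this

end DiagData

end embed

end Pool.Agent.H916R3
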