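import Mathlib

/-!
# An abstract gliding hump lemma
-/

namespace Pool.Agent.H916R3

open Filter Topology

/-- The sequence `z` has uniformly bounded finite subset sums (it is weakly unconditionally
Cauchy). -/
def WUC {E : Type*} [NormedAddCommGroup E] (z : ℕ → E) : Prop :=
  ∃ C : ℝ, ∀ F : Finset ℕ, ‖∑ k ∈ F, z k‖ ≤ C

/-- Every weakly unconditionally Cauchy sequence in `V` tends to zero. -/
def NullWUC {E : Type*} [NormedAddCommGroup E] (V : Set E) : Prop :=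
  ∀ z : ℕ → E, (∀ k, z k ∈ V) → WUC z → Tendsto (fun k => ‖z k‖) atTop (𝓝 0)

theorem WUC.real {a : ℕ → ℝ} (ha : WUC a) : Tendsto (fun k => |a k|) atTop (𝓝 0) := by
  obtain ⟨C, hC⟩ := ha
  have hs : Summable fun k => |a k| := by
    refine summable_of_sum_le (c := 2 * C) (fun _ => abs_nonneg _) fun u => ?_
    have h1 := hC (u.filter fun k => 0 ≤ a k)
    have h2 := hC (u.filter fun k => ¬ 0 ≤ a k)
    rw [Real.norm_eq_abs] at h1 h2
    rw [← Finset.sum_filter_add_sum_filter_not u (fun k => 0 ≤ a k) (fun k => |a k|)]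
    have e1 : ∑ k ∈ u.filter (fun k => 0 ≤ a k), |a k| = ∑ k ∈ u.filter (fun k => 0 ≤ a k), a k :=
      Finset.sum_congr rfl fun k hk => abs_of_nonneg (Finset.mem_filter.mp hk).2
    have e2 : ∑ k ∈ u.filter (fun k => ¬ 0 ≤ a k), |a k|
        = - ∑ k ∈ u.filter (fun k => ¬ 0 ≤ a k), a k := by
      rw [← Finset.sum_neg_distrib]
      exact Finset.sum_congr rfl fun k hk =>
        abs_of_nonpos (le_of_lt (not_le.mp (Finset.mem_filter.mp hk).2))
    rw [e1, e2]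
    have := abs_le.mp h1
    have := abs_le.mp h2
    linarith
  exact hs.tendsto_atTop_zero

theorem WUC.map {E F : Type*} [NormedAddCommGroup E] [NormedSpace ℝ E] [NormedAddCommGroup F]
    [NormedSpace ℝ F] {z : ℕ → E} (hz : WUC z) (T : E →L[ℝ] F) : WUC fun k => T (z k) := by
  obtain ⟨C, hC⟩ := hz
  refine ⟨‖T‖ * C, fun S => ?_⟩
  rw [← map_sum]
  exact (T.le_opNorm _).trans (mul_le_mul_of_nonneg_left (hC S) (norm_nonneg _))

theorem gliding {E : Type*} [NormedAddCommGroup E] [NormedSpace ℝ E] (V : Submodule ℝ E)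
    {Γ : Type*} [Nonempty Γ] (R : Γ → E →L[ℝ] E) (Φ : E → ℝ) (le : Γ → Γ → Prop)
    (hRV : ∀ γ, ∀ v ∈ V, R γ v ∈ V)
    (hR1 : ∀ γ v, R γ (R γ v) = R γ v)
    (hR2 : ∀ γ γ', le γ γ' → ∀ v, R γ (R γ' v) = R γ v ∧ R γ' (R γ v) = R γ v)
    (hΦ1 : ∀ w, ‖w‖ ^ 2 ≤ Φ w) (hΦ2 : ∀ w, Φ w ≤ 2 * ‖w‖ ^ 2)
    (hΦ3 : ∀ γ, ∀ w ∈ V, ∀ w' ∈ V, R γ w = w → R γ w' = 0 → Φ w + Φ w' ≤ Φ (w + w'))
    (hnull : ∀ γ, ∀ z : ℕ → E, (∀ k, z k ∈ V) → WUC z →
      Tendsto (fun k => ‖R γ (z k)‖) atTop (𝓝 0))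
    (hcof : ∀ v ∈ V, ∀ ε > 0, ∀ γ₀, ∃ γ, le γ₀ γ ∧ ‖v - R γ v‖ ≤ ε) :
    NullWUC (V : Set E) := by
  intro z hzV hz
  by_contra hnot
  -- extract delta
  have hδ : ∃ δ > 0, ∀ N : ℕ, ∃ k ≥ N, δ ≤ ‖z k‖ := by
    by_contra hc
    push Not at hc
    refine hnot ?_
    rw [Metric.tendsto_atTop]
    intro ε hε
    obtain ⟨N, hN⟩ := hc ε hε
    refine ⟨N, fun n hn => ?_⟩
    rw [Real.dist_eq, sub_zero, abs_of_nonneg (norm_nonneg _)]
    exact hN n hn
  obtain ⟨δ, hδ0, hδ⟩ := hδ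
  obtain ⟨C, hC⟩ := hz
  have hC0 : 0 ≤ C := (norm_nonneg _).trans (hC ∅)
  have main : ∀ ε : ℝ, 0 < ε → ε ≤ δ / 2 → ∀ J : ℕ, ∃ (F : Finset ℕ) (w : E) (γ : Γ), w ∈ V ∧
      R γ w = w ∧ ‖w - ∑ k ∈ F, z k‖ ≤ J * ε ∧ J * (δ / 2) ^ 2 ≤ Φ w := by
    intro ε hε hεδ J
    induction J with
    | zero =>
      refine ⟨∅, 0, Classical.arbitrary Γ, V.zero_mem, map_zero _, by simp, ?_⟩
      have := hΦ1 0
      simp only [norm_zero] at this
      norm_num at this ⊢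
      exact this
    | succ J ih =>
      obtain ⟨F, w, γ, hwV, hγw, hwF, hwΦ⟩ := ih
      have h0 := hnull γ z hzV ⟨C, hC⟩
      rw [Metric.tendsto_atTop] at h0
      obtain ⟨N, hN⟩ := h0 (ε / 2) (by positivity)
      obtain ⟨k, hk, hkδ⟩ := hδ (max N (F.sup id + 1))
      have hkN : N ≤ k := (le_max_left _ _).trans hk
      have hkF : k ∉ F := by
        intro hkF
        have h1 : k ≤ F.sup id := Finset.le_sup (f := id) hkF
        have h2 : F.sup id + 1 ≤ k := (le_max_right _ _).trans hk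
        omega
      have hRk : ‖R γ (z k)‖ ≤ ε / 2 := by
        have := hN k hkN
        rw [Real.dist_eq, sub_zero, abs_of_nonneg (norm_nonneg _)] at this
        exact this.le
      set v := z k - R γ (z k) with hv
      have hvV : v ∈ V := V.sub_mem (hzV k) (hRV γ _ (hzV k))
      obtain ⟨γ', hle, hγ'⟩ := hcof v hvV (ε / 2) (by positivity) γ
      set w' := R γ' v with hw'
      have hw'V : w' ∈ V := hRV γ' _ hvV
      have hγw' : R γ w' = 0 := by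
        rw [hw', (hR2 γ γ' hle v).1, hv, map_sub, hR1, sub_self]
      have hγ'w' : R γ' w' = w' := by rw [hw', hR1]
      have hγ'w : R γ' w = w := by
        have := (hR2 γ γ' hle w).2
        rwa [hγw] at this
      have hclose : ‖w' - z k‖ ≤ ε := by
        have : w' - z k = -(v - R γ' v) - R γ (z k) := by rw [hw', hv]; abel
        rw [this]
        calc ‖-(v - R γ' v) - R γ (z k)‖ ≤ ‖-(v - R γ' v)‖ + ‖R γ (z k)‖ := norm_sub_le _ _
          _ ≤ ε / 2 + ε / 2 := by rw [norm_neg]; exact add_le_add hγ' hRk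
          _ = ε := by ring
      have hw'δ : δ / 2 ≤ ‖w'‖ := by
        have : ‖z k‖ ≤ ‖w'‖ + ‖w' - z k‖ := by
          have h1 : z k = w' - (w' - z k) := by abel
          calc ‖z k‖ = ‖w' - (w' - z k)‖ := by rw [← h1]
            _ ≤ _ := norm_sub_le _ _
        linarith
      refine ⟨insert k F, w + w', γ', V.add_mem hwV hw'V, by rw [map_add, hγ'w, hγ'w'], ?_, ?_⟩
      · rw [Finset.sum_insert hkF]
        have : w + w' - (z k + ∑ k ∈ F, z k) = (w - ∑ k ∈ F, z k) + (w' - z k) := by abel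
        rw [this]
        calc _ ≤ ‖w - ∑ k ∈ F, z k‖ + ‖w' - z k‖ := norm_add_le _ _
          _ ≤ J * ε + ε := add_le_add hwF hclose
          _ = ((J + 1 : ℕ) : ℝ) * ε := by push_cast; ring
      · have h1 := hΦ3 γ w hwV w' hw'V hγw hγw'
        have h2 : (δ / 2) ^ 2 ≤ Φ w' := (pow_le_pow_left₀ (by positivity) hw'δ 2).trans (hΦ1 w')
        push_cast
        nlinarith
  -- contradiction
  obtain ⟨J, hJ⟩ := exists_nat_gt (2 * (C + 1) ^ 2 / (δ / 2) ^ 2)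
  have hJ0 : (0 : ℝ) < J := lt_of_le_of_lt (by positivity) hJ
  obtain ⟨F, w, γ, _, _, h1, h2⟩ := main (min (δ / 2) (1 / J)) (lt_min (by positivity)
    (by positivity)) (min_le_left _ _) J
  have h3 : ‖w‖ ≤ C + 1 := by
    have h4 : ‖w - ∑ k ∈ F, z k‖ ≤ 1 := by
      refine h1.trans ?_
      calc (J : ℝ) * min (δ / 2) (1 / J) ≤ J * (1 / J) :=
            mul_le_mul_of_nonneg_left (min_le_right _ _) hJ0.le
        _ = 1 := by field_simp
    have h5 : w = (w - ∑ k ∈ F, z k) + ∑ k ∈ F, z k := by abel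
    calc ‖w‖ = ‖(w - ∑ k ∈ F, z k) + ∑ k ∈ F, z k‖ := by rw [← h5]
      _ ≤ ‖w - ∑ k ∈ F, z k‖ + ‖∑ k ∈ F, z k‖ := norm_add_le _ _
      _ ≤ 1 + C := add_le_add h4 (hC F)
      _ = C + 1 := by ring
  have h6 : (J : ℝ) * (δ / 2) ^ 2 ≤ 2 * (C + 1) ^ 2 := by
    refine h2.trans ((hΦ2 w).trans ?_)
    have := pow_le_pow_left₀ (norm_nonneg w) h3 2
    linarith
  rw [div_lt_iff₀ (by positivity)] at hJ
  linarith

end Pool.Agent.H916R3
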