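import Mathlib
import Pool.Agent.H916R3.Cones
import Pool.Agent.H916R3.InjTensor

set_option maxSynthPendingDepth 6

/-!
# The space `X` and the copy of `C(K)` in `X ⊗ X`
-/

namespace Pool.Agent.H916R3

open Set Finset

section space

variable {K : Type*} [LinearOrder K] (e : K → ℕ)

/-- The coordinate function `q ↦ √(q s)` on `Q`. -/
noncomputable def coord (s : K) : C(QSet e, ℝ) :=
  ⟨fun q => Real.sqrt (q.1 s), Real.continuous_sqrt.comp
    ((continuous_apply s).comp continuous_subtype_val)⟩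

/-- Closed span of the coordinate functions with index in `U`. -/
noncomputable def Ysub (U : Set K) : Submodule ℝ C(QSet e, ℝ) :=
  (Submodule.span ℝ (coord e '' U)).topologicalClosure

/-- The space `X`: the closed span of all coordinate functions. -/
noncomputable abbrev XSp := Ysub e (Set.univ : Set K)

instance : CompleteSpace (Ysub e (Set.univ : Set K)) := by
  unfold Ysub
  exact (Submodule.isClosed_topologicalClosure _).completeSpace_coe

variable {e}

@[simp] theorem coord_apply (s : K) (q : QSet e) : coord e s q = Real.sqrt (q.1 s) := rfl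

theorem coord_mem {U : Set K} {s : K} (hs : s ∈ U) : coord e s ∈ Ysub e U :=
  Submodule.le_topologicalClosure _ (Submodule.subset_span ⟨s, hs, rfl⟩)

variable (e)

/-- The coordinate vectors as elements of `X`. -/
noncomputable def cv (s : K) : XSp e := ⟨coord e s, coord_mem (Set.mem_univ s)⟩

/-- Evaluation at a point of `Q` as a functional on `X`. -/
noncomputable def evQ (q : QSet e) : XSp e →L[ℝ] ℝ :=
  (ContinuousMap.evalCLM ℝ q).comp (Submodule.subtypeL _)

variable {e}

@[simp] theorem evQ_apply (q : QSet e) (x : XSp e) : evQ e q x = x.1 q := rfl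

@[simp] theorem cv_val (s : K) (q : QSet e) : (cv e s).1 q = Real.sqrt (q.1 s) := rfl

@[simp] theorem evQ_cv (q : QSet e) (s : K) : evQ e q (cv e s) = Real.sqrt (q.1 s) := rfl

theorem norm_evQ_le (q : QSet e) : ‖evQ e q‖ ≤ 1 := by
  refine ContinuousLinearMap.opNorm_le_bound _ zero_le_one fun x => ?_
  rw [one_mul]
  exact ContinuousMap.norm_coe_le_norm x.1 q

open Classical in
/-- The branch point of `Q` attached to `t`. -/
noncomputable def br (he : Function.Injective e) (t : K) : QSet e :=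
  ⟨fun s => if InCone e t s then (1 : ℝ) else 0, QSet.branch he t⟩

open Classical in
@[simp] theorem evQ_br_cv (he : Function.Injective e) (t s : K) :
    evQ e (br he t) (cv e s) = if InCone e t s then 1 else 0 := by
  simp only [evQ_cv, br]
  split_ifs <;> simp

/-- A bound for the norm of a finite combination in `X`. -/
theorem norm_comb_le (F : Finset K) (a : K → ℝ) {M : ℝ} (hM : 0 ≤ M)
    (h : ∀ q : QSet e, |∑ s ∈ F, a s * Real.sqrt (q.1 s)| ≤ M) :
    ‖∑ s ∈ F, a s • cv e s‖ ≤ M := by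
  change ‖((∑ s ∈ F, a s • cv e s : XSp e) : C(QSet e, ℝ))‖ ≤ M
  rw [ContinuousMap.norm_le _ hM]
  intro q
  have : ((∑ s ∈ F, a s • cv e s : XSp e) : C(QSet e, ℝ)) q = ∑ s ∈ F, a s * Real.sqrt (q.1 s) := by
    have h2 : ((∑ s ∈ F, a s • cv e s : XSp e) : C(QSet e, ℝ)) q
        = evQ e q (∑ s ∈ F, a s • cv e s) := rfl
    rw [h2, map_sum]
    simp
  rw [this, Real.norm_eq_abs]
  exact h q

open Classical in
/-- The tensor norm inequality. -/
theorem tensor_le (he : Function.Injective e) (F : Finset K) (a : K → ℝ) {M : ℝ} (hM : 0 ≤ M)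
    (h : ∀ t, |∑ s ∈ F, if InCone e t s then a s else 0| ≤ M) :
    ‖∑ s ∈ F, a s • tmul (cv e s) (cv e s)‖ ≤ M := by
  have key : ∀ q q' : QSet e, |∑ s ∈ F, a s * (Real.sqrt (q.1 s) * Real.sqrt (q'.1 s))| ≤ M := by
    intro q q'
    have h1 := key_ineq he (fun s => Real.sqrt (q.1 s) * Real.sqrt (q'.1 s))
      (fun s => by positivity) ?_ M F.card F a 0 1 le_rfl zero_le_one (by simpa using hM) ?_
      (fun t _ => by simpa using h t)
    · simpa using h1
    · intro r A hA hAr
      refine (Real.sum_mul_le_sqrt_mul_sqrt A _ _).trans ?_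
      have e1 : ∑ i ∈ A, Real.sqrt (q.1 i) ^ 2 = ∑ i ∈ A, q.1 i :=
        Finset.sum_congr rfl fun i _ => Real.sq_sqrt (q.2.1 i)
      have e2 : ∑ i ∈ A, Real.sqrt (q'.1 i) ^ 2 = ∑ i ∈ A, q'.1 i :=
        Finset.sum_congr rfl fun i _ => Real.sq_sqrt (q'.2.1 i)
      rw [e1, e2]
      exact mul_le_mul (Real.sqrt_le_sqrt (q.2.2.2 r A hA hAr))
        (Real.sqrt_le_sqrt (q'.2.2.2 r A hA hAr)) (Real.sqrt_nonneg _) (Real.sqrt_nonneg _)
    · intro A _ hA
      refine (Real.sum_mul_le_sqrt_mul_sqrt A _ _).trans ?_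
      have e1 : ∑ i ∈ A, Real.sqrt (q.1 i) ^ 2 = ∑ i ∈ A, q.1 i :=
        Finset.sum_congr rfl fun i _ => Real.sq_sqrt (q.2.1 i)
      have e2 : ∑ i ∈ A, Real.sqrt (q'.1 i) ^ 2 = ∑ i ∈ A, q'.1 i :=
        Finset.sum_congr rfl fun i _ => Real.sq_sqrt (q'.2.1 i)
      rw [e1, e2]
      have h1 : Real.sqrt (∑ i ∈ A, q.1 i) ≤ 1 := by
        exact Real.sqrt_le_one.mpr (q.2.2.1 A hA)
      have h2 : Real.sqrt (∑ i ∈ A, q'.1 i) ≤ 1 := by
        exact Real.sqrt_le_one.mpr (q'.2.2.1 A hA)
      calc _ ≤ 1 * 1 := mul_le_mul h1 h2 (Real.sqrt_nonneg _) zero_le_one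
        _ = 1 := one_mul 1
  refine BForm.norm_le_of _ hM fun f g => ?_
  have happ : (∑ s ∈ F, a s • tmul (cv e s) (cv e s)).app f g
      = f (∑ s ∈ F, (a s * g (cv e s)) • cv e s) := by
    rw [map_sum, BForm.app_sum]
    simp only [map_smul, smul_eq_mul, BForm.app_smul, BForm.app_tmul]
    refine Finset.sum_congr rfl fun s _ => ?_
    ring
  rw [happ]
  have hb : ‖∑ s ∈ F, (a s * g (cv e s)) • cv e s‖ ≤ M * ‖g‖ := by
    refine norm_comb_le F _ (by positivity) fun q => ?_
    have h3 : ∑ s ∈ F, a s * g (cv e s) * Real.sqrt (q.1 s)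
        = g (∑ s ∈ F, (a s * Real.sqrt (q.1 s)) • cv e s) := by
      rw [map_sum]
      simp only [map_smul, smul_eq_mul]
      refine Finset.sum_congr rfl fun s _ => ?_
      ring
    rw [h3, ← Real.norm_eq_abs]
    refine (g.le_opNorm _).trans ?_
    rw [mul_comm]
    refine mul_le_mul_of_nonneg_right ?_ (norm_nonneg _)
    refine norm_comb_le F _ hM fun q' => ?_
    have h4 := key q q'
    simpa only [mul_assoc] using h4
  calc ‖f (∑ s ∈ F, (a s * g (cv e s)) • cv e s)‖
      ≤ ‖f‖ * ‖∑ s ∈ F, (a s * g (cv e s)) • cv e s‖ := f.le_opNorm _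
    _ ≤ ‖f‖ * (M * ‖g‖) := mul_le_mul_of_nonneg_left hb (norm_nonneg _)
    _ = M * ‖f‖ * ‖g‖ := by ring

end space

section topo

variable {K : Type*} [LinearOrder K] [WellFoundedLT K] [TopologicalSpace K] [OrderTopology K]
  {e : K → ℕ}

theorem isOpen_Iic_wf (s : K) : IsOpen (Set.Iic s) := by
  classical
  let _ : SuccOrder K := SuccOrder.ofLinearWellFoundedLT K
  by_cases h : IsMax s
  · have : Set.Iic s = Set.univ := by
      ext x; simp only [Set.mem_Iic, Set.mem_univ, iff_true]
      rcases le_total x s with h1 | h1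
      · exact h1
      · exact h h1
    rw [this]; exact isOpen_univ
  · rw [← Order.Iio_succ_of_not_isMax h]
    exact isOpen_Iio

theorem isClopen_cone (he : Function.Injective e) (s : K) : IsClopen {t | InCone e t s} := by
  have hfin : {r : K | r < s ∧ e r < e s}.Finite := by
    refine Set.Finite.subset ((Set.finite_Iio (e s)).preimage he.injOn) ?_
    intro r hr
    exact hr.2
  have heq : {t | InCone e t s} = Set.Iic s ∩ ⋂ r ∈ {r : K | r < s ∧ e r < e s}, Set.Ioi r := by
    ext t
    simp only [Set.mem_ofPred_eq, Set.mem_inter_iff, Set.mem_Iic, Set.mem_iInter, Set.mem_Ioi]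
    constructor
    · intro h
      refine ⟨h.1, fun r hr => ?_⟩
      by_contra hlt
      have := h.2 r (not_lt.mp hlt) hr.1.le
      omega
    · rintro ⟨h1, h2⟩
      refine ⟨h1, fun r hr1 hr2 => ?_⟩
      rcases eq_or_lt_of_le hr2 with rfl | hlt
      · exact le_rfl
      · by_contra hc
        exact absurd (h2 r ⟨hlt, not_le.mp hc⟩) (not_lt.mpr hr1)
  rw [heq]
  refine IsClopen.inter ⟨isClosed_Iic, isOpen_Iic_wf s⟩ ?_
  refine hfin.isClopen_biInter fun r _ => ⟨?_, isOpen_Ioi⟩
  rw [← Set.compl_Iic]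
  exact (isOpen_Iic_wf r).isClosed_compl

theorem continuous_br (he : Function.Injective e) : Continuous (br (e := e) he) := by
  classical
  refine Continuous.subtype_mk (continuous_pi fun s => ?_) _
  have h := isClopen_cone (e := e) he s
  refine continuous_const.if ?_ continuous_const
  intro a ha
  have : frontier {t | InCone e t s} = ∅ := h.frontier_eq
  rw [this] at ha
  exact absurd ha (Set.notMem_empty a)

end topo

end Pool.Agent.H916R3
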