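import Mathlib
import Pool.Agent.H916R3.Space
import Pool.Agent.H916R3.Gliding

set_option maxSynthPendingDepth 6

/-!
# The space `X` has no wuC sequences that do not tend to zero
-/

namespace Pool.Agent.H916R3

open Set Filter Topology

section noc0

variable {K : Type*} [LinearOrder K] {e : K → ℕ}

/-- A closed-span induction principle. -/
theorem Ysub_induction {U : Set K} {p : C(QSet e, ℝ) → Prop} (hcl : IsClosed {w | p w})
    (h0 : p 0) (hadd : ∀ a b, p a → p b → p (a + b)) (hsmul : ∀ (c : ℝ) a, p a → p (c • a))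
    (hgen : ∀ s ∈ U, p (coord e s)) {w : C(QSet e, ℝ)} (hw : w ∈ Ysub e U) : p w := by
  have hsub : (Submodule.span ℝ (coord e '' U) : Set C(QSet e, ℝ)) ⊆ {w | p w} := by
    intro u hu
    induction hu using Submodule.span_induction with
    | mem x hx => obtain ⟨s, hs, rfl⟩ := hx; exact hgen s hs
    | zero => exact h0
    | add a b _ _ ha hb => exact hadd a b ha hb
    | smul c a _ ha => exact hsmul c a ha
  exact hcl.closure_subset_iff.mpr hsub hw

theorem Ysub_mono {U U' : Set K} (h : U ⊆ U') : Ysub e U ≤ Ysub e U' :=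
  Submodule.topologicalClosure_mono (Submodule.span_mono (Set.image_mono h))

theorem isClosed_Ysub (U : Set K) : IsClosed (Ysub e U : Set C(QSet e, ℝ)) :=
  Submodule.isClosed_topologicalClosure _

/-- Homogeneity: elements of the closed span only depend on the coordinates in `U`, and are
homogeneous with respect to the square root of the coordinates. -/
theorem Ysub_homog {U : Set K} {w : C(QSet e, ℝ)} (hw : w ∈ Ysub e U) (q q' : QSet e) (c : ℝ)
    (hc : 0 ≤ c) (h : ∀ s ∈ U, q.1 s = c ^ 2 * q'.1 s) : w q = c * w q' := by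
  refine Ysub_induction (p := fun w => w q = c * w q') ?_ ?_ ?_ ?_ ?_ hw
  · exact isClosed_eq (continuous_eval_const q)
      (continuous_const.mul (continuous_eval_const q'))
  · simp
  · intro a b ha hb
    rw [ContinuousMap.add_apply, ContinuousMap.add_apply, ha, hb]; ring
  · intro r a ha
    rw [ContinuousMap.smul_apply, ContinuousMap.smul_apply, ha, smul_eq_mul, smul_eq_mul]; ring
  · intro s hs
    rw [coord_apply, coord_apply, h s hs, Real.sqrt_mul (sq_nonneg c), Real.sqrt_sq hc]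

/-- An operator that maps generators into a closed span maps the closed span into it. -/
theorem Ysub_map {U U' : Set K} (T : C(QSet e, ℝ) →L[ℝ] C(QSet e, ℝ))
    (h : ∀ s ∈ U, T (coord e s) ∈ Ysub e U') {w : C(QSet e, ℝ)} (hw : w ∈ Ysub e U) :
    T w ∈ Ysub e U' := by
  refine Ysub_induction (p := fun w => T w ∈ Ysub e U') ?_ ?_ ?_ ?_ h hw
  · exact (isClosed_Ysub U').preimage T.continuous
  · rw [map_zero]; exact Submodule.zero_mem _
  · intro a b ha hb
    rw [map_add]; exact Submodule.add_mem _ ha hb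
  · intro c a ha
    rw [map_smul]; exact Submodule.smul_mem _ c ha

/-! ### Good cuts -/

variable (e) in
/-- `γ` is a good cut below `β`. -/
def GoodCut (β γ : K) : Prop := γ < β ∧ ∀ t, γ < t → t < β → ¬ InCone e γ t

variable (e) in
open Classical in
/-- Restriction of `q` to the coordinates `≤ γ` and `≥ β`. -/
noncomputable def cutMap (β γ : K) (h : GoodCut e β γ) (q : QSet e) : QSet e :=
  ⟨fun s => if s ∈ Set.Iic γ ∪ Set.Ici β then q.1 s else 0, QSet.cut q.2 _ (by
    rintro u r (hu | hu) hur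
    · rcases le_or_gt r γ with hr | hr
      · exact Or.inl hr
      · rcases lt_or_ge r β with hr' | hr'
        · exact absurd (InCone.convex hur hu hr.le) (h.2 r hr hr')
        · exact Or.inr hr'
    · exact Or.inr (le_trans hu hur.1))⟩

theorem continuous_cutMap (β γ : K) (h : GoodCut e β γ) : Continuous (cutMap e β γ h) := by
  refine Continuous.subtype_mk (continuous_pi fun s => ?_) _
  by_cases hs : s ∈ Set.Iic γ ∪ Set.Ici β
  · simp only [hs, if_true]
    exact (continuous_apply s).comp continuous_subtype_val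
  · simp only [hs, if_false]
    exact continuous_const

/-- The cut operator. -/
noncomputable def cutOp (β γ : K) (h : GoodCut e β γ) : C(QSet e, ℝ) →L[ℝ] C(QSet e, ℝ) :=
  LinearMap.mkContinuous
    { toFun := fun w => w.comp ⟨cutMap e β γ h, continuous_cutMap β γ h⟩
      map_add' := fun _ _ => rfl
      map_smul' := fun _ _ => rfl } 1 (by
    intro w
    rw [one_mul]
    exact (ContinuousMap.norm_le _ (norm_nonneg _)).mpr fun q => w.norm_coe_le_norm _)

theorem cutOp_apply (β γ : K) (h : GoodCut e β γ) (w : C(QSet e, ℝ)) (q : QSet e) :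
    cutOp β γ h w q = w (cutMap e β γ h q) := rfl

theorem norm_cutOp_le (β γ : K) (h : GoodCut e β γ) (w : C(QSet e, ℝ)) :
    ‖cutOp β γ h w‖ ≤ ‖w‖ :=
  (ContinuousMap.norm_le _ (norm_nonneg _)).mpr fun q => w.norm_coe_le_norm _

theorem cutOp_coord_of_le (β γ : K) (h : GoodCut e β γ) {s : K} (hs : s ≤ γ) :
    cutOp β γ h (coord e s) = coord e s := by
  refine ContinuousMap.ext fun q => ?_
  rw [cutOp_apply, coord_apply, coord_apply]
  have : (cutMap e β γ h q).1 s = q.1 s := if_pos (Or.inl hs)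
  rw [this]

theorem cutOp_coord_of_gt (β γ : K) (h : GoodCut e β γ) {s : K} (hs : γ < s) (hs' : s < β) :
    cutOp β γ h (coord e s) = 0 := by
  refine ContinuousMap.ext fun q => ?_
  rw [cutOp_apply, coord_apply]
  have : (cutMap e β γ h q).1 s = 0 := if_neg (by
    rintro (h1 | h1)
    · exact absurd h1 (not_le.mpr hs)
    · exact absurd h1 (not_le.mpr hs'))
  rw [this, Real.sqrt_zero]; rfl

theorem cutMap_cutMap (β γ γ' : K) (h : GoodCut e β γ) (h' : GoodCut e β γ') (hle : γ ≤ γ')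
    (q : QSet e) : cutMap e β γ h (cutMap e β γ' h' q) = cutMap e β γ h q ∧
      cutMap e β γ' h' (cutMap e β γ h q) = cutMap e β γ h q := by
  constructor
  · refine Subtype.ext (funext fun s => ?_)
    simp only [cutMap]
    by_cases h1 : s ∈ Set.Iic γ ∪ Set.Ici β
    · have h2 : s ∈ Set.Iic γ' ∪ Set.Ici β := by
        rcases h1 with h1 | h1
        · exact Or.inl (le_trans h1 hle)
        · exact Or.inr h1
      rw [if_pos h1, if_pos h2, if_pos h1]
    · rw [if_neg h1, if_neg h1]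
  · refine Subtype.ext (funext fun s => ?_)
    simp only [cutMap]
    by_cases h1 : s ∈ Set.Iic γ ∪ Set.Ici β
    · have h2 : s ∈ Set.Iic γ' ∪ Set.Ici β := by
        rcases h1 with h1 | h1
        · exact Or.inl (le_trans h1 hle)
        · exact Or.inr h1
      rw [if_pos h1, if_pos h2]
    · rw [if_neg h1, ite_self]

/-! ### The two-superadditive functional -/

/-- The positive part norm. -/
noncomputable def NN (w : C(QSet e, ℝ)) : ℝ := ‖w ⊔ 0‖

theorem NN_nonneg (w : C(QSet e, ℝ)) : 0 ≤ NN w := norm_nonneg _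

theorem le_NN (w : C(QSet e, ℝ)) (q : QSet e) : w q ≤ NN w := by
  refine le_trans ?_ ((le_abs_self _).trans (ContinuousMap.norm_coe_le_norm (w ⊔ 0) q))
  rw [ContinuousMap.sup_apply]
  exact le_sup_left

theorem NN_le_norm (w : C(QSet e, ℝ)) : NN w ≤ ‖w‖ := by
  refine (ContinuousMap.norm_le _ (norm_nonneg _)).mpr fun q => ?_
  rw [ContinuousMap.sup_apply, Real.norm_eq_abs, ContinuousMap.zero_apply,
    abs_of_nonneg le_sup_right]
  exact sup_le ((le_abs_self _).trans (w.norm_coe_le_norm q)) (norm_nonneg _)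

variable (e) in
/-- The zero element of `Q`. -/
def zeroQ : QSet e := ⟨fun _ => 0, fun _ => le_rfl, fun A _ => by simp, fun r A _ _ => by simp⟩

instance : Nonempty (QSet e) := ⟨zeroQ e⟩

theorem exists_NN {U : Set K} {w : C(QSet e, ℝ)} (hw : w ∈ Ysub e U) : ∃ q, w q = NN w := by
  obtain ⟨q, _, hq⟩ := isCompact_univ.exists_isMaxOn (α := ℝ) (f := fun q : QSet e => w q)
    (Set.univ_nonempty) w.continuous.continuousOn
  have hq' : ∀ q', w q' ≤ w q := fun q' => hq (Set.mem_univ q')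
  rcases le_or_gt (w q) 0 with h | h
  · refine ⟨zeroQ e, ?_⟩
    have h1 : w (zeroQ e) = 0 := by
      have := Ysub_homog hw (zeroQ e) (zeroQ e) 0 le_rfl (by intro s _; simp [zeroQ])
      rw [this, zero_mul]
    rw [h1]
    refine le_antisymm (NN_nonneg w) ?_
    refine (ContinuousMap.norm_le _ le_rfl).mpr fun q' => ?_
    rw [ContinuousMap.sup_apply, ContinuousMap.zero_apply, sup_eq_right.mpr ((hq' q').trans h),
      norm_zero]
  · refine ⟨q, le_antisymm (le_NN w q) ?_⟩
    refine (ContinuousMap.norm_le _ h.le).mpr fun q' => ?_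
    rw [ContinuousMap.sup_apply, Real.norm_eq_abs, ContinuousMap.zero_apply,
      abs_of_nonneg le_sup_right]
    exact sup_le (hq' q') h.le

/-- The functional `Φ`. -/
noncomputable def PhiF (w : C(QSet e, ℝ)) : ℝ := NN w ^ 2 + NN (-w) ^ 2

theorem sq_norm_le_Phi (w : C(QSet e, ℝ)) : ‖w‖ ^ 2 ≤ PhiF w := by
  have h1 : ‖w‖ ≤ max (NN w) (NN (-w)) := by
    refine (ContinuousMap.norm_le _ (le_max_of_le_left (NN_nonneg w))).mpr fun q => ?_
    rw [Real.norm_eq_abs, abs_le]
    constructor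
    · have := le_NN (-w) q
      rw [ContinuousMap.neg_apply] at this
      have h2 := le_max_right (NN w) (NN (-w))
      linarith
    · exact (le_NN w q).trans (le_max_left _ _)
  have h2 := NN_nonneg w
  have h3 := NN_nonneg (-w)
  unfold PhiF
  rcases max_cases (NN w) (NN (-w)) with ⟨h, _⟩ | ⟨h, _⟩
  · rw [h] at h1
    have := pow_le_pow_left₀ (norm_nonneg w) h1 2
    nlinarith [sq_nonneg (NN (-w))]
  · rw [h] at h1
    have := pow_le_pow_left₀ (norm_nonneg w) h1 2
    nlinarith [sq_nonneg (NN w)]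

theorem Phi_le (w : C(QSet e, ℝ)) : PhiF w ≤ 2 * ‖w‖ ^ 2 := by
  have h1 := pow_le_pow_left₀ (NN_nonneg w) (NN_le_norm w) 2
  have h2 := pow_le_pow_left₀ (NN_nonneg (-w)) (NN_le_norm (-w)) 2
  rw [norm_neg] at h2
  unfold PhiF
  linarith

theorem NN_super {β γ : K} (h : GoodCut e β γ) {w w' : C(QSet e, ℝ)}
    (hw : w ∈ Ysub e (Set.Iic γ)) (hw' : w' ∈ Ysub e (Set.Ioo γ β)) :
    NN w ^ 2 + NN w' ^ 2 ≤ NN (w + w') ^ 2 := by
  classical
  obtain ⟨q₁, h₁⟩ := exists_NN hw
  obtain ⟨q₂, h₂⟩ := exists_NN hw'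
  set r := Real.sqrt (NN w ^ 2 + NN w' ^ 2) with hr
  have hr2 : r ^ 2 = NN w ^ 2 + NN w' ^ 2 := Real.sq_sqrt (by positivity)
  have hr0 : 0 ≤ r := Real.sqrt_nonneg _
  rcases eq_or_lt_of_le hr0 with h0 | hpos
  · rw [← hr2, ← h0]
    simpa using sq_nonneg (NN (w + w'))
  have ha0 : 0 ≤ NN w / r := div_nonneg (NN_nonneg w) hr0
  have hb0 : 0 ≤ NN w' / r := div_nonneg (NN_nonneg w') hr0
  have hab : (NN w / r) ^ 2 + (NN w' / r) ^ 2 ≤ 1 := by
    rw [div_pow, div_pow, ← add_div, ← hr2, div_self (by positivity)]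
  have hS : (fun s => if s ∈ Set.Ioi γ then q₂.1 s else 0) ∈ QSet e :=
    QSet.cut q₂.2 _ (by
      intro u r hu hur
      exact lt_of_lt_of_le hu hur.1)
  let q : QSet e := ⟨_, QSet.combo (cutMap e β γ h q₁).2 hS (sq_nonneg (NN w / r))
    (sq_nonneg (NN w' / r)) hab⟩
  have e1 : w q = NN w / r * w q₁ := by
    refine Ysub_homog hw q q₁ _ ha0 fun s hs => ?_
    have hs1 : s ∈ Set.Iic γ ∪ Set.Ici β := Or.inl hs
    have hs2 : s ∉ Set.Ioi γ := not_lt.mpr hs
    simp only [q, cutMap, if_pos hs1, if_neg hs2]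
    ring
  have e2 : w' q = NN w' / r * w' q₂ := by
    refine Ysub_homog hw' q q₂ _ hb0 fun s hs => ?_
    have hs1 : s ∉ Set.Iic γ ∪ Set.Ici β := by
      rintro (h1 | h1)
      · exact absurd h1 (not_le.mpr hs.1)
      · exact absurd h1 (not_le.mpr hs.2)
    have hs2 : s ∈ Set.Ioi γ := hs.1
    simp only [q, cutMap, if_neg hs1, if_pos hs2]
    ring
  have e3 : (w + w') q = r := by
    rw [ContinuousMap.add_apply, e1, e2, h₁, h₂]
    field_simp
    linarith
  have e4 := le_NN (w + w') q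
  rw [e3] at e4
  rw [← hr2]
  exact pow_le_pow_left₀ hr0 e4 2

theorem Phi_super {β γ : K} (h : GoodCut e β γ) {w w' : C(QSet e, ℝ)}
    (hw : w ∈ Ysub e (Set.Iic γ)) (hw' : w' ∈ Ysub e (Set.Ioo γ β)) :
    PhiF w + PhiF w' ≤ PhiF (w + w') := by
  have h1 := NN_super h hw hw'
  have h2 := NN_super h (Submodule.neg_mem _ hw) (Submodule.neg_mem _ hw')
  have h3 : -(w + w') = -w + -w' := by abel
  unfold PhiF
  rw [h3]
  linarith

theorem cutOp_mem_Iic {β γ : K} (h : GoodCut e β γ) {w : C(QSet e, ℝ)}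
    (hw : w ∈ Ysub e (Set.Iio β)) : cutOp β γ h w ∈ Ysub e (Set.Iic γ) := by
  refine Ysub_map _ (fun s hs => ?_) hw
  rcases le_or_gt s γ with h1 | h1
  · rw [cutOp_coord_of_le β γ h h1]; exact coord_mem h1
  · rw [cutOp_coord_of_gt β γ h h1 hs]; exact Submodule.zero_mem _

theorem sub_cutOp_mem_Ioo {β γ : K} (h : GoodCut e β γ) {w : C(QSet e, ℝ)}
    (hw : w ∈ Ysub e (Set.Iio β)) : w - cutOp β γ h w ∈ Ysub e (Set.Ioo γ β) := by
  have := Ysub_map (U' := Set.Ioo γ β) (ContinuousLinearMap.id ℝ _ - cutOp β γ h)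
    (fun s hs => ?_) hw
  · exact this
  · change coord e s - cutOp β γ h (coord e s) ∈ _
    rcases le_or_gt s γ with h1 | h1
    · rw [cutOp_coord_of_le β γ h h1, sub_self]; exact Submodule.zero_mem _
    · rw [cutOp_coord_of_gt β γ h h1 hs, sub_zero]; exact coord_mem ⟨h1, hs⟩

/-- Good cuts are cofinal. -/
theorem exists_goodCut (he : Function.Injective e) {β γ₀ : K} (h : γ₀ < β) :
    ∃ γ, γ₀ ≤ γ ∧ GoodCut e β γ := by
  classical
  obtain ⟨γ, hγ, hmin⟩ := (InvImage.wf e Nat.lt_wfRel.wf).has_min (Set.Ico γ₀ β)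
    ⟨γ₀, le_rfl, h⟩
  refine ⟨γ, hγ.1, hγ.2, fun t h1 h2 h3 => ?_⟩
  have h4 := h3.2 γ le_rfl h1.le
  have h5 := hmin t ⟨hγ.1.trans h1.le, h2⟩
  have h6 : ¬ e t < e γ := h5
  have h7 : e t = e γ := by omega
  exact absurd (he h7) (ne_of_gt h1)

/-- Approximation by cuts. -/
theorem approx_cut (he : Function.Injective e) {β : K} {w : C(QSet e, ℝ)}
    (hw : w ∈ Ysub e (Set.Iio β)) {ε : ℝ} (hε : 0 < ε) {γ₀ : K} (hγ₀ : γ₀ < β) :
    ∃ γ, ∃ h : GoodCut e β γ, γ₀ ≤ γ ∧ ‖w - cutOp β γ h w‖ ≤ ε := by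
  classical
  have hcl : w ∈ closure (Submodule.span ℝ (coord e '' Set.Iio β) : Set C(QSet e, ℝ)) := hw
  obtain ⟨u, hu, hwu⟩ := Metric.mem_closure_iff.mp hcl (ε / 2) (by positivity)
  -- `u` is fixed by all late cuts
  have hfix : ∃ γ₁ < β, ∀ γ (h : GoodCut e β γ), γ₁ ≤ γ → cutOp β γ h u = u := by
    have hu' : u ∈ Submodule.span ℝ (coord e '' Set.Iio β) := hu
    clear hwu hu
    induction hu' using Submodule.span_induction with
    | mem x hx =>
      obtain ⟨s, hs, rfl⟩ := hx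
      exact ⟨s, hs, fun γ h hsγ => cutOp_coord_of_le β γ h hsγ⟩
    | zero => exact ⟨γ₀, hγ₀, fun γ h _ => map_zero _⟩
    | add a b _ _ ha hb =>
      obtain ⟨γa, hγa, ha⟩ := ha
      obtain ⟨γb, hγb, hb⟩ := hb
      refine ⟨max γa γb, max_lt hγa hγb, fun γ h hγ => ?_⟩
      rw [map_add, ha γ h ((le_max_left _ _).trans hγ), hb γ h ((le_max_right _ _).trans hγ)]
    | smul c a _ ha =>
      obtain ⟨γa, hγa, ha⟩ := ha
      exact ⟨γa, hγa, fun γ h hγ => by rw [map_smul, ha γ h hγ]⟩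
  obtain ⟨γ₁, hγ₁, hfix⟩ := hfix
  obtain ⟨γ, hγ, hgood⟩ := exists_goodCut he (max_lt hγ₀ hγ₁)
  refine ⟨γ, hgood, (le_max_left _ _).trans hγ, ?_⟩
  have h1 := hfix γ hgood ((le_max_right _ _).trans hγ)
  have h2 : w - cutOp β γ hgood w = (w - u) - cutOp β γ hgood (w - u) := by
    rw [map_sub, h1]; abel
  rw [h2]
  rw [dist_eq_norm] at hwu
  calc _ ≤ ‖w - u‖ + ‖cutOp β γ hgood (w - u)‖ := norm_sub_le _ _
    _ ≤ ‖w - u‖ + ‖w - u‖ := by gcongr; exact norm_cutOp_le _ _ _ _
    _ ≤ ε := by linarith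

/-- The main inductive step below `β`. -/
theorem null_Iio (he : Function.Injective e) (β : K)
    (ih : ∀ γ < β, NullWUC (Ysub e (Set.Iic γ) : Set C(QSet e, ℝ))) :
    NullWUC (Ysub e (Set.Iio β) : Set C(QSet e, ℝ)) := by
  by_cases hne : ∃ γ, GoodCut e β γ
  · obtain ⟨γ₀, hγ₀⟩ := hne
    have : Nonempty {γ // GoodCut e β γ} := ⟨⟨γ₀, hγ₀⟩⟩
    refine gliding (Ysub e (Set.Iio β)) (Γ := {γ // GoodCut e β γ})
      (fun γ => cutOp β γ.1 γ.2) PhiF (fun γ γ' => γ.1 ≤ γ'.1) ?_ ?_ ?_ sq_norm_le_Phi Phi_le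
      ?_ ?_ ?_
    · intro γ v hv
      exact Ysub_mono (fun s hs => lt_of_le_of_lt hs γ.2.1) (cutOp_mem_Iic γ.2 hv)
    · intro γ v
      refine ContinuousMap.ext fun q => ?_
      rw [cutOp_apply, cutOp_apply, cutOp_apply, (cutMap_cutMap β _ _ γ.2 γ.2 le_rfl q).1]
    · intro γ γ' hle v
      constructor
      · refine ContinuousMap.ext fun q => ?_
        rw [cutOp_apply, cutOp_apply, cutOp_apply, (cutMap_cutMap β _ _ γ.2 γ'.2 hle q).2]
      · refine ContinuousMap.ext fun q => ?_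
        rw [cutOp_apply, cutOp_apply, cutOp_apply, (cutMap_cutMap β _ _ γ.2 γ'.2 hle q).1]
    · intro γ w hw w' hw' h1 h2
      refine Phi_super γ.2 ?_ ?_
      · rw [← h1]; exact cutOp_mem_Iic γ.2 hw
      · have := sub_cutOp_mem_Ioo γ.2 hw'
        rwa [h2, sub_zero] at this
    · intro γ z hz hwuc
      exact ih γ.1 γ.2.1 _ (fun k => cutOp_mem_Iic γ.2 (hz k)) (hwuc.map _)
    · intro v hv ε hε γ₁
      obtain ⟨γ, h, hle, hn⟩ := approx_cut he hv hε γ₁.2.1
      exact ⟨⟨γ, h⟩, hle, hn⟩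
  · -- no good cut: `Iio β` is empty
    have hempty : Set.Iio β = (∅ : Set K) := by
      rw [Set.eq_empty_iff_forall_notMem]
      intro γ hγ
      obtain ⟨γ', _, h⟩ := exists_goodCut he hγ
      exact hne ⟨γ', h⟩
    intro z hz _
    have hz0 : ∀ k, ‖z k‖ = 0 := by
      intro k
      have h1 : z k ∈ Ysub e (∅ : Set K) := by rw [← hempty]; exact hz k
      have : z k = 0 := Ysub_induction (p := fun w => w = 0) (isClosed_singleton) rfl
        (fun a b ha hb => by rw [ha, hb, add_zero]) (fun c a ha => by rw [ha, smul_zero])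
        (fun s hs => absurd hs (Set.notMem_empty s)) h1
      rw [this, norm_zero]
    simp only [hz0]
    exact tendsto_const_nhds

theorem null_Iic (he : Function.Injective e) (β : K)
    (ih : ∀ γ < β, NullWUC (Ysub e (Set.Iic γ) : Set C(QSet e, ℝ))) :
    NullWUC (Ysub e (Set.Iic β) : Set C(QSet e, ℝ)) := by
  classical
  intro z hz hwuc
  let ev : C(QSet e, ℝ) →L[ℝ] ℝ := ContinuousMap.evalCLM ℝ (br he β)
  let T : C(QSet e, ℝ) →L[ℝ] C(QSet e, ℝ) :=
    ContinuousLinearMap.id ℝ _ - ev.smulRight (coord e β)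
  have hT : ∀ w, T w = w - ev w • coord e β := fun w => rfl
  have hmem : ∀ k, T (z k) ∈ Ysub e (Set.Iio β) := by
    intro k
    refine Ysub_map T (fun s hs => ?_) (hz k)
    rw [hT]
    have hev : ev (coord e s) = if InCone e β s then 1 else 0 := by
      change Real.sqrt ((br he β).1 s) = _
      simp only [br]
      split_ifs <;> simp
    rw [hev]
    rcases eq_or_lt_of_le (show s ≤ β from hs) with rfl | hlt
    · rw [if_pos (InCone.refl he _), one_smul, sub_self]; exact Submodule.zero_mem _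
    · rw [if_neg (fun h' => absurd h'.1 (not_le.mpr hlt)), zero_smul, sub_zero]
      exact coord_mem hlt
  have h1 := null_Iio he β ih (fun k => T (z k)) hmem (hwuc.map T)
  have h2 : Tendsto (fun k => |ev (z k)|) atTop (𝓝 0) := (hwuc.map ev).real
  have h3 : Tendsto (fun k => ‖T (z k)‖ + |ev (z k)| * ‖coord e β‖) atTop (𝓝 0) := by
    have := h1.add (h2.mul_const ‖coord e β‖)
    simpa using this
  refine squeeze_zero (fun _ => norm_nonneg _) (fun k => ?_) h3
  have h4 : z k = T (z k) + ev (z k) • coord e β := by rw [hT]; abel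
  calc ‖z k‖ = ‖T (z k) + ev (z k) • coord e β‖ := by rw [← h4]
    _ ≤ ‖T (z k)‖ + ‖ev (z k) • coord e β‖ := norm_add_le _ _
    _ = _ := by rw [norm_smul, Real.norm_eq_abs]

theorem null_all [WellFoundedLT K] (he : Function.Injective e) (β : K) :
    NullWUC (Ysub e (Set.Iic β) : Set C(QSet e, ℝ)) := by
  induction β using WellFoundedLT.induction with
  | ind β ih => exact null_Iic he β ih

/-- In `X` every weakly unconditionally Cauchy sequence tends to zero. -/
theorem null_XSp [WellFoundedLT K] [OrderTop K] (he : Function.Injective e) (z : ℕ → XSp e)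
    (hz : WUC z) : Tendsto (fun k => ‖z k‖) atTop (𝓝 0) := by
  have h1 : (Set.univ : Set K) = Set.Iic ⊤ := by
    ext x; simp
  have h2 := null_all he (⊤ : K) (fun k => ((z k : XSp e) : C(QSet e, ℝ))) (fun k => by
    rw [← h1]; exact (z k).2) (by
    obtain ⟨C, hC⟩ := hz
    refine ⟨C, fun F => ?_⟩
    have := hC F
    rw [← Submodule.coe_sum]
    exact this)
  exact h2

end noc0

end Pool.Agent.H916R3
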