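import Mathlib
import Pool.Agent.H916R3.AbsEmbed
import Pool.Agent.H916R3.NoC0

set_option maxSynthPendingDepth 6

/-!
# The main construction for compact countable well ordered spaces
-/

namespace Pool.Agent.H916R3

open Set Filter Topology

/-- A Banach space containing vectors of norm at least one with bounded finite subset sums has no
isomorphic copy inside a space in which all wuC sequences tend to zero. -/
theorem no_copy {E X : Type*} [NormedAddCommGroup E] [NormedSpace ℝ E] [NormedAddCommGroup X]
    [NormedSpace ℝ X] (hX : ∀ z : ℕ → X, WUC z → Tendsto (fun k => ‖z k‖) atTop (𝓝 0))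
    (b : ℕ → E) (hb : WUC b) (hb1 : ∀ k, 1 ≤ ‖b k‖) (W : Submodule ℝ X) (T : E ≃L[ℝ] W) :
    False := by
  have h1 : WUC fun k => ((T (b k) : W) : X) :=
    hb.map ((Submodule.subtypeL W).comp (T : E →L[ℝ] W))
  have h2 := hX _ h1
  have h3 : ∀ k, 1 ≤ ‖(T.symm : W →L[ℝ] E)‖ * ‖((T (b k) : W) : X)‖ := by
    intro k
    refine (hb1 k).trans ?_
    have := (T.symm : W →L[ℝ] E).le_opNorm (T (b k))
    simpa using this
  have h4 : Tendsto (fun k => ‖(T.symm : W →L[ℝ] E)‖ * ‖((T (b k) : W) : X)‖) atTop (𝓝 0) := by
    simpa using h2.const_mul ‖(T.symm : W →L[ℝ] E)‖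
  have h5 := ge_of_tendsto' h4 h3
  linarith

open Classical in
/-- Existence of a suitable enumeration. -/
theorem exists_enum (K : Type*) [LinearOrder K] [OrderTop K] [Countable K] :
    ∃ e : K → ℕ, Function.Injective e ∧ ∀ s, InCone e s (⊤ : K) := by
  obtain ⟨f, hf⟩ := exists_injective_nat K
  refine ⟨fun k => if k = ⊤ then 0 else f k + 1, ?_, ?_⟩
  · intro a b hab
    dsimp only at hab
    by_cases ha : a = ⊤ <;> by_cases hb : b = ⊤
    · rw [ha, hb]
    · rw [if_pos ha, if_neg hb] at hab; omega
    · rw [if_neg ha, if_pos hb] at hab; omega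
    · rw [if_neg ha, if_neg hb] at hab
      exact hf (by omega)
  · intro s
    refine ⟨le_top, fun r _ _ => ?_⟩
    simp

universe u

/-- The main construction. -/
theorem main_construction (K : Type u) [LinearOrder K] [WellFoundedLT K] [TopologicalSpace K]
    [OrderTopology K] [CompactSpace K] [OrderTop K] [Countable K] :
    ∃ (X : Type u) (_ : NormedAddCommGroup X) (_ : NormedSpace ℝ X) (_ : CompleteSpace X),
      NormOneComplemented C(K, ℝ) (InjTensor X X) ∧
      ∀ z : ℕ → X, WUC z → Tendsto (fun k => ‖z k‖) atTop (𝓝 0) := by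
  classical
  obtain ⟨e, he, htop⟩ := exists_enum K
  have D : DiagData e (fun t => evQ e (br he t)) (cv e) :=
    { norm_le := fun t => norm_evQ_le _
      cont := fun x => x.1.continuous.comp (continuous_br he)
      pair := fun t s => by
        rw [evQ_br_cv]
      tensor := fun F a M hM h => tensor_le he F a hM h }
  refine ⟨XSp e, inferInstance, inferInstance, inferInstance, ?_, ?_⟩
  · exact D.exists_embed he htop
  · exact fun z hz => null_XSp he z hz

end Pool.Agent.H916R3
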